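import Mathlib

/-!
The Kleene-Brouwer order on finite sequences of naturals, trees of descending sequences of a
step relation, and order embeddings induced by simulations.
-/

set_option autoImplicit false

namespace Pool.Agent.Lib.MP_c89ac5_lc

/-- Strict Kleene-Brouwer order: a proper extension is smaller, otherwise compare at the first
difference. -/
def kb : List ℕ → List ℕ → Prop
  | [], _ => False
  | _ :: _, [] => True
  | a :: s, b :: t => a < b ∨ (a = b ∧ kb s t)

@[simp] theorem kb_nil_left (t : List ℕ) : ¬ kb [] t := by simp [kb]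

@[simp] theorem kb_cons_nil (a : ℕ) (s : List ℕ) : kb (a :: s) [] := by simp [kb]

@[simp] theorem kb_cons_cons (a b : ℕ) (s t : List ℕ) :
    kb (a :: s) (b :: t) ↔ a < b ∨ (a = b ∧ kb s t) := by simp [kb]

theorem kb_irrefl : ∀ s : List ℕ, ¬ kb s s
  | [] => by simp
  | a :: s => by simp [kb_irrefl s]

theorem kb_trans : ∀ {s t u : List ℕ}, kb s t → kb t u → kb s u
  | [], _, _, h, _ => by simp at h
  | _ :: _, [], _, _, h => by simp at h
  | _ :: _, _ :: _, [], _, _ => by simp
  | a :: s, b :: t, c :: u, h1, h2 => by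
    simp only [kb_cons_cons] at h1 h2 ⊢
    rcases h1 with h1 | ⟨rfl, h1⟩ <;> rcases h2 with h2 | ⟨rfl, h2⟩
    · exact Or.inl (h1.trans h2)
    · exact Or.inl h1
    · exact Or.inl h2
    · exact Or.inr ⟨rfl, kb_trans h1 h2⟩

theorem kb_total : ∀ s t : List ℕ, kb s t ∨ s = t ∨ kb t s
  | [], [] => by simp
  | [], _ :: _ => by simp
  | _ :: _, [] => by simp
  | a :: s, b :: t => by
    simp only [kb_cons_cons, List.cons.injEq]
    rcases lt_trichotomy a b with h | h | h
    · exact Or.inl (Or.inl h)
    · subst h
      rcases kb_total s t with h | h | h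
      · exact Or.inl (Or.inr ⟨rfl, h⟩)
      · exact Or.inr (Or.inl ⟨rfl, h⟩)
      · exact Or.inr (Or.inr (Or.inr ⟨rfl, h⟩))
    · exact Or.inr (Or.inr (Or.inl h))

theorem kb_iff : ∀ s t : List ℕ, kb s t ↔
    ∃ n < s.length, s.take n = t.take n ∧ (t.length ≤ n ∨ s.getD n 0 < t.getD n 0)
  | [], t => by simp
  | a :: s, [] => by
    simp only [kb_cons_nil, true_iff]
    exact ⟨0, by simp, by simp, by simp⟩
  | a :: s, b :: t => by
    rw [kb_cons_cons, kb_iff s t]
    constructor
    · rintro (h | ⟨rfl, n, hn, h1, h2⟩)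
      · exact ⟨0, by simp, by simp, Or.inr (by simpa using h)⟩
      · exact ⟨n + 1, by simpa using hn, by simpa using h1, by simpa using h2⟩
    · rintro ⟨n, hn, h1, h2⟩
      cases n with
      | zero => exact Or.inl (by simpa using h2)
      | succ n =>
        simp only [List.take_succ_cons, List.cons.injEq] at h1
        exact Or.inr ⟨h1.1, n, by simpa using hn, h1.2, by simpa using h2⟩

section Trees

variable {X : Type} (step : X → X → Prop) (dec : ℕ → X)

/-- The tree of label sequences that decode to a sequence of steps starting from a state. -/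
def InTree : X → List ℕ → Prop
  | _, [] => True
  | x, l :: s => step x (dec l) ∧ InTree (dec l) s

@[simp] theorem inTree_nil (x : X) : InTree step dec x [] := by simp [InTree]

@[simp] theorem inTree_cons (x : X) (l : ℕ) (s : List ℕ) :
    InTree step dec x (l :: s) ↔ step x (dec l) ∧ InTree step dec (dec l) s := by simp [InTree]

theorem inTree_iff [Inhabited X] : ∀ (s : List ℕ) (x : X), InTree step dec x s ↔
    ∀ i < s.length, step ((x :: s.map dec).getI i) (dec (s.getD i 0))
  | [], x => by simp
  | l :: s, x => by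
    rw [inTree_cons, inTree_iff s (dec l)]
    constructor
    · rintro ⟨h1, h2⟩ i hi
      cases i with
      | zero => simpa using h1
      | succ i => simpa using h2 i (by simpa using hi)
    · intro h
      refine ⟨by simpa using h 0 (by simp), fun i hi => ?_⟩
      simpa using h (i + 1) (by simpa using hi)

/-- The Kleene-Brouwer order is well-founded on the tree below an accessible state. -/
theorem acc_kb {x : X} (hx : Acc (fun y x => step x y) x) :
    ∀ s, InTree step dec x s → Acc (fun s t => InTree step dec x s ∧ kb s t) s := by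
  induction hx with
  | intro x _ ih =>
    have key : ∀ l : ℕ, ∀ s, InTree step dec x (l :: s) →
        Acc (fun s t => InTree step dec x s ∧ kb s t) (l :: s) := by
      intro l
      induction l using Nat.strong_induction_on with
      | _ l ihl =>
        intro s hs
        have hacc := ih (dec l) hs.1 s hs.2
        induction hacc with
        | intro s _ ihs =>
          refine Acc.intro _ ?_
          rintro t ⟨ht, hlt⟩
          cases t with
          | nil => simp at hlt
          | cons m t =>
            rcases (kb_cons_cons _ _ _ _).1 hlt with h | ⟨rfl, h⟩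
            · exact ihl m h t ht
            · exact ihs t ⟨ht.2, h⟩ ht
    intro s hs
    cases s with
    | nil =>
      refine Acc.intro _ ?_
      rintro t ⟨ht, hlt⟩
      cases t with
      | nil => simp at hlt
      | cons m t => exact key m t ht
    | cons l s => exact key l s hs

/-- A simulation between states gives an order embedding between their trees. -/
theorem exists_emb (hdec : ∀ (v : X) (N : ℕ), ∃ l, N ≤ l ∧ dec l = v)
    (Sim : X → X → Prop)
    (hSim : ∀ u v, Sim u v → ∀ u', step u u' → ∃ v', step v v' ∧ Sim u' v')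
    {x y : X} (hxy : Sim x y) :
    ∃ e : List ℕ → List ℕ, (∀ s, InTree step dec x s → InTree step dec y (e s)) ∧
      ∀ s t, kb s t → kb (e s) (e t) := by
  classical
  have h1 : ∀ u v : X, ∃ h : ℕ → ℕ, StrictMono h ∧ ∀ l, Sim u v → step u (dec l) →
      step v (dec (h l)) ∧ Sim (dec l) (dec (h l)) := by
    intro u v
    apply Filter.extraction_forall_of_frequently
      (P := fun l k => Sim u v → step u (dec l) → step v (dec k) ∧ Sim (dec l) (dec k))
    intro l
    rw [Filter.frequently_atTop]
    intro N
    by_cases h : Sim u v ∧ step u (dec l)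
    · obtain ⟨v', hv1, hv2⟩ := hSim u v h.1 _ h.2
      obtain ⟨k, hk, rfl⟩ := hdec v' N
      exact ⟨k, hk, fun _ _ => ⟨hv1, hv2⟩⟩
    · exact ⟨N, le_rfl, fun a b => absurd ⟨a, b⟩ h⟩
  choose h hmono hh using h1
  let e : List ℕ → X → X → List ℕ := fun s =>
    List.rec (motive := fun _ => X → X → List ℕ) (fun _ _ => [])
      (fun l _ ih u v => h u v l :: ih (dec l) (dec (h u v l))) s
  have e_nil : ∀ u v, e [] u v = [] := fun _ _ => rfl
  have e_cons : ∀ l s u v, e (l :: s) u v = h u v l :: e s (dec l) (dec (h u v l)) :=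
    fun _ _ _ _ => rfl
  have p1 : ∀ s u v, Sim u v → InTree step dec u s → InTree step dec v (e s u v) := by
    intro s
    induction s with
    | nil => intro u v _ _; simp [e_nil]
    | cons l s ih =>
      intro u v huv hs
      rw [e_cons]
      have := hh u v l huv hs.1
      exact ⟨this.1, ih _ _ this.2 hs.2⟩
  have p2 : ∀ s t u v, kb s t → kb (e s u v) (e t u v) := by
    intro s
    induction s with
    | nil => intro t u v hst; simp at hst
    | cons l s ih =>
      intro t u v hst
      cases t with
      | nil => simp [e_nil, e_cons]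
      | cons m t =>
        rw [e_cons, e_cons, kb_cons_cons]
        rcases (kb_cons_cons _ _ _ _).1 hst with h' | ⟨rfl, h'⟩
        · exact Or.inl (hmono u v h')
        · exact Or.inr ⟨rfl, ih _ _ _ h'⟩
  exact ⟨fun s => e s x y, fun s hs => p1 s x y hxy hs, fun s t hst => p2 s t x y hst⟩

end Trees

section Orders

/-- A set on which the Kleene-Brouwer order is well-founded. -/
def KBWF (S : List ℕ → Prop) : Prop := ∀ s, S s → Acc (fun s t => S s ∧ kb s t) s

/-- A strictly monotone self-map of a well-ordered set never moves a point down. -/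
theorem KBWF.not_lt {S : List ℕ → Prop} (hS : KBWF S) (e : List ℕ → List ℕ)
    (h1 : ∀ s, S s → S (e s)) (h2 : ∀ s t, S s → S t → kb s t → kb (e s) (e t)) :
    ∀ s, S s → ¬ kb (e s) s := by
  intro s hs
  have hacc := hS s hs
  induction hacc with
  | intro s _ ih =>
    intro hlt
    exact ih (e s) ⟨h1 s hs, hlt⟩ (h1 s hs) (h2 _ _ (h1 s hs) hs hlt)

theorem KBWF.isWellOrder {S : List ℕ → Prop} (hS : KBWF S) :
    IsWellOrder {s // S s} (fun a b => kb a.1 b.1) where
  trichotomous := fun a b h1 h2 => by
    rcases kb_total a.1 b.1 with h | h | h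
    · exact absurd h h1
    · exact Subtype.ext h
    · exact absurd h h2
  wf := ⟨fun a => by
    obtain ⟨s, hs⟩ := a
    have hacc := hS s hs
    induction hacc with
    | intro s _ ih =>
      refine Acc.intro _ ?_
      rintro ⟨t, ht⟩ hlt
      exact ih t ⟨ht, hlt⟩ ht⟩

/-- Mutually embeddable well-ordered sets are isomorphic. -/
theorem exists_iso {S S' : List ℕ → Prop} (hS : KBWF S) (hS' : KBWF S')
    (e e' : List ℕ → List ℕ)
    (h1 : ∀ s, S s → S' (e s)) (h2 : ∀ s t, kb s t → kb (e s) (e t))
    (h1' : ∀ s, S' s → S (e' s)) (h2' : ∀ s t, kb s t → kb (e' s) (e' t)) :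
    ∃ θ : List ℕ → List ℕ, (∀ s, S s → S' (θ s)) ∧
      (∀ s t, S s → S t → kb s t → kb (θ s) (θ t)) ∧ ∀ t, S' t → ∃ s, S s ∧ θ s = t := by
  classical
  have := hS.isWellOrder
  have := hS'.isWellOrder
  have le1 : Ordinal.type (fun a b : {s // S s} => kb a.1 b.1) ≤
      Ordinal.type (fun a b : {s // S' s} => kb a.1 b.1) :=
    Ordinal.type_le_iff'.2 ⟨RelEmbedding.ofMonotone (fun a => ⟨e a.1, h1 _ a.2⟩)
      (fun a b h => h2 _ _ h)⟩
  have le2 : Ordinal.type (fun a b : {s // S' s} => kb a.1 b.1) ≤
      Ordinal.type (fun a b : {s // S s} => kb a.1 b.1) :=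
    Ordinal.type_le_iff'.2 ⟨RelEmbedding.ofMonotone (fun a => ⟨e' a.1, h1' _ a.2⟩)
      (fun a b h => h2' _ _ h)⟩
  obtain ⟨f⟩ := Ordinal.type_eq.1 (le_antisymm le1 le2)
  refine ⟨fun s => if h : S s then (f ⟨s, h⟩).1 else s, ?_, ?_, ?_⟩
  · intro s hs
    simp only [hs, dif_pos]
    exact (f ⟨s, hs⟩).2
  · intro s t hs ht hst
    simp only [hs, ht, dif_pos]
    exact f.map_rel_iff.2 hst
  · intro t ht
    refine ⟨(f.symm ⟨t, ht⟩).1, (f.symm ⟨t, ht⟩).2, ?_⟩
    simp only [(f.symm ⟨t, ht⟩).2, dif_pos]
    simp

end Orders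

end Pool.Agent.Lib.MP_c89ac5_lc
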