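import Mathlib
import Pool.Agent.Lib.MP_c89ac5_lc.KB

/-!
The abstract group-theoretic part: a structure on the naturals made of points, junk elements
(named by constants), and well-ordered sets attached to pairs of tuples.
-/

set_option autoImplicit false

namespace Pool.Agent.Lib.MP_c89ac5_lc

open Equiv

/-- Coding data for the structure. -/
structure Setup where
  pt : ℕ → ℕ
  Node : ℕ → Prop
  Junk : ℕ → Prop
  za : ℕ → List ℕ
  zb : ℕ → List ℕ
  zs : ℕ → List ℕ
  S : List ℕ → List ℕ → List ℕ → Prop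
  pt_inj : Function.Injective pt
  not_node_pt : ∀ n, ¬ Node (pt n)
  not_junk_pt : ∀ n, ¬ Junk (pt n)
  not_junk_node : ∀ z, Node z → ¬ Junk z
  cover : ∀ z, Junk z ∨ Node z ∨ ∃ n, z = pt n
  node_ext : ∀ z w, Node z → Node w → za z = za w → zb z = zb w → zs z = zs w → z = w
  node_S : ∀ z, Node z → S (za z) (zb z) (zs z)
  node_ex : ∀ a b s, S a b s → ∃ z, Node z ∧ za z = a ∧ zb z = b ∧ zs z = s
  S_nil : ∀ a b, S a b []
  S_wf : ∀ a b, KBWF (S a b)

namespace Setup

variable (U : Setup)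

/-- The relations of the structure. -/
def Rel (tag j : ℕ) (b : List ℕ) (l : List ℕ) : Prop :=
  (tag = 0 ∧ l = [j] ∧ U.Junk j) ∨
  (tag = 1 ∧ ∃ z, U.Node z ∧ l = z :: (U.za z).map U.pt ∧ U.zb z = b) ∨
  (tag = 2 ∧ ∃ z w, l = [z, w] ∧ U.Node z ∧ U.Node w ∧ U.za z = U.za w ∧ U.zb z = U.zb w ∧
    kb (U.zs z) (U.zs w))

/-- Automorphisms of the structure. -/
def IsAut (π : Perm ℕ) : Prop := ∀ tag j b l, U.Rel tag j b (l.map π) ↔ U.Rel tag j b l

/-- `π` acts on the structure over the permutation `g` of the points. -/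
structure Good (g π : Perm ℕ) : Prop where
  pt : ∀ n, π (U.pt n) = U.pt (g n)
  junk : ∀ j, U.Junk j → π j = j
  node : ∀ z, U.Node z → U.Node (π z)
  za : ∀ z, U.Node z → U.za (π z) = (U.za z).map g
  zb : ∀ z, U.Node z → U.zb (π z) = U.zb z
  ord : ∀ z w, U.Node z → U.Node w → U.za z = U.za w → U.zb z = U.zb w →
    kb (U.zs z) (U.zs w) → kb (U.zs (π z)) (U.zs (π w))

variable {U}

theorem Good.mul {g π g' π' : Perm ℕ} (h : U.Good g π) (h' : U.Good g' π') :
    U.Good (g * g') (π * π') where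
  pt := fun n => by simp [h'.pt, h.pt]
  junk := fun j hj => by simp [h'.junk j hj, h.junk j hj]
  node := fun z hz => h.node _ (h'.node _ hz)
  za := fun z hz => by
    simp only [Perm.coe_mul, Function.comp_apply]
    rw [h.za _ (h'.node _ hz), h'.za _ hz, List.map_map]
  zb := fun z hz => by
    simp only [Perm.coe_mul, Function.comp_apply]
    rw [h.zb _ (h'.node _ hz), h'.zb _ hz]
  ord := fun z w hz hw ha hb hs => by
    simp only [Perm.coe_mul, Function.comp_apply]
    apply h.ord _ _ (h'.node _ hz) (h'.node _ hw)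
    · rw [h'.za _ hz, h'.za _ hw, ha]
    · rw [h'.zb _ hz, h'.zb _ hw, hb]
    · exact h'.ord _ _ hz hw ha hb hs

theorem Good.node_inv {g π : Perm ℕ} (h : U.Good g π) (z : ℕ) (hz : U.Node z) :
    U.Node (π⁻¹ z) := by
  rcases U.cover (π⁻¹ z) with hj | hn | ⟨n, hn⟩
  · have := h.junk _ hj
    simp only [Perm.coe_inv, apply_symm_apply] at this hj
    rw [← this] at hj
    exact absurd hj (U.not_junk_node _ hz)
  · exact hn
  · have := h.pt n
    rw [← hn] at this
    simp only [Perm.coe_inv, apply_symm_apply] at this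
    rw [this] at hz
    exact absurd hz (U.not_node_pt _)

theorem Good.inv {g π : Perm ℕ} (h : U.Good g π) : U.Good g⁻¹ π⁻¹ := by
  have hza : ∀ z, U.Node z → U.za (π⁻¹ z) = (U.za z).map ⇑g⁻¹ := by
    intro z hz
    have := h.za _ (h.node_inv z hz)
    simp only [Perm.coe_inv, apply_symm_apply] at this
    rw [this, List.map_map]
    simp
  have hzb : ∀ z, U.Node z → U.zb (π⁻¹ z) = U.zb z := by
    intro z hz
    have := h.zb _ (h.node_inv z hz)
    simp only [Perm.coe_inv, apply_symm_apply] at this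
    exact this.symm
  refine ⟨fun n => ?_, fun j hj => ?_, h.node_inv, hza, hzb, fun z w hz hw ha hb hs => ?_⟩
  · rw [Perm.inv_eq_iff_eq, h.pt]; simp
  · rw [Perm.inv_eq_iff_eq, h.junk j hj]
  · have hz' := h.node_inv z hz
    have hw' := h.node_inv w hw
    have ha' : U.za (π⁻¹ z) = U.za (π⁻¹ w) := by rw [hza _ hz, hza _ hw, ha]
    have hb' : U.zb (π⁻¹ z) = U.zb (π⁻¹ w) := by rw [hzb _ hz, hzb _ hw, hb]
    rcases kb_total (U.zs (π⁻¹ z)) (U.zs (π⁻¹ w)) with h1 | h1 | h1
    · exact h1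
    · have := U.node_ext _ _ hz' hw' ha' hb' h1
      have hzw : z = w := (π⁻¹).injective this
      rw [hzw] at hs
      exact absurd hs (kb_irrefl _)
    · have := h.ord _ _ hw' hz' ha'.symm hb'.symm h1
      simp only [Perm.coe_inv, apply_symm_apply] at this
      exact absurd (kb_trans hs this) (kb_irrefl _)

theorem Good.rel {g π : Perm ℕ} (h : U.Good g π) {tag j : ℕ} {b l : List ℕ}
    (hl : U.Rel tag j b l) : U.Rel tag j b (l.map π) := by
  rcases hl with ⟨h0, rfl, hj⟩ | ⟨h1, z, hz, rfl, hb⟩ | ⟨h2, z, w, rfl, hz, hw, ha, hb, hs⟩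
  · exact Or.inl ⟨h0, by simp [h.junk j hj], hj⟩
  · refine Or.inr (Or.inl ⟨h1, π z, h.node _ hz, ?_, by rw [h.zb _ hz, hb]⟩)
    rw [h.za _ hz]
    simp [h.pt]
  · refine Or.inr (Or.inr ⟨h2, π z, π w, by simp, h.node _ hz, h.node _ hw, ?_, ?_,
      h.ord _ _ hz hw ha hb hs⟩)
    · rw [h.za _ hz, h.za _ hw, ha]
    · rw [h.zb _ hz, h.zb _ hw, hb]

theorem Good.isAut {g π : Perm ℕ} (h : U.Good g π) : U.IsAut π := by
  intro tag j b l
  refine ⟨fun hl => ?_, h.rel⟩
  have := h.inv.rel hl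
  simpa [List.map_map] using this

theorem IsAut.inv {π : Perm ℕ} (h : U.IsAut π) : U.IsAut π⁻¹ := by
  intro tag j b l
  rw [← h tag j b (l.map ⇑π⁻¹), List.map_map]
  simp

theorem IsAut.node {π : Perm ℕ} (h : U.IsAut π) (z : ℕ) (hz : U.Node z) :
    U.Node (π z) ∧ ((U.za z).map U.pt).map π = (U.za (π z)).map U.pt ∧ U.zb (π z) = U.zb z := by
  have : U.Rel 1 0 (U.zb z) (z :: (U.za z).map U.pt) := Or.inr (Or.inl ⟨rfl, z, hz, rfl, rfl⟩)
  rw [← h] at this
  rcases this with ⟨h0, -⟩ | ⟨-, w, hw, hl, hb⟩ | ⟨h2, -⟩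
  · simp at h0
  · simp only [List.map_cons, List.cons.injEq] at hl
    obtain ⟨rfl, hl⟩ := hl
    exact ⟨hw, hl, hb⟩
  · simp at h2

theorem IsAut.pt {π : Perm ℕ} (h : U.IsAut π) (n : ℕ) : ∃ m, π (U.pt n) = U.pt m := by
  obtain ⟨z, hz, ha, -, -⟩ := U.node_ex [n] [] [] (U.S_nil _ _)
  have := (h.node z hz).2.1
  rw [ha] at this
  have hm : π (U.pt n) ∈ (U.za (π z)).map U.pt := by rw [← this]; simp
  obtain ⟨m, -, hm⟩ := List.mem_map.1 hm
  exact ⟨m, hm.symm⟩

theorem IsAut.good {π : Perm ℕ} (h : U.IsAut π) : ∃ g, U.Good g π := by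
  choose f hf using h.pt
  choose f' hf' using h.inv.pt
  let g : Perm ℕ :=
    { toFun := f
      invFun := f'
      left_inv := fun n => U.pt_inj (by rw [← hf', ← hf]; simp)
      right_inv := fun n => U.pt_inj (by rw [← hf, ← hf']; simp) }
  refine ⟨g, hf, fun j hj => ?_, fun z hz => (h.node z hz).1, fun z hz => ?_,
    fun z hz => (h.node z hz).2.2, fun z w hz hw ha hb hs => ?_⟩
  · have : U.Rel 0 j [] [j] := Or.inl ⟨rfl, rfl, hj⟩
    rw [← h] at this
    rcases this with ⟨-, hl, -⟩ | ⟨h1, -⟩ | ⟨h2, -⟩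
    · simpa using hl
    · simp at h1
    · simp at h2
  · have := (h.node z hz).2.1
    apply (List.map_injective_iff.2 U.pt_inj)
    rw [← this, List.map_map, List.map_map]
    congr 1
    funext n
    exact hf n
  · have : U.Rel 2 0 [] [z, w] := Or.inr (Or.inr ⟨rfl, z, w, rfl, hz, hw, ha, hb, hs⟩)
    rw [← h] at this
    rcases this with ⟨h0, -⟩ | ⟨h1, -⟩ | ⟨-, z', w', hl, -, -, -, -, hs'⟩
    · simp at h0
    · simp at h1
    · simp only [List.map_cons, List.map_nil, List.cons.injEq, and_true] at hl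
      obtain ⟨rfl, rfl⟩ := hl
      exact hs'

/-- The action on one attached well-order, as a map on label sequences. -/
theorem Good.exists_map {g π : Perm ℕ} (h : U.Good g π) (a b : List ℕ) :
    ∃ e : List ℕ → List ℕ, (∀ s, U.S a b s → U.S (a.map g) b (e s)) ∧
      (∀ s t, U.S a b s → U.S a b t → kb s t → kb (e s) (e t)) ∧
      ∀ z, U.Node z → U.za z = a → U.zb z = b → e (U.zs z) = U.zs (π z) := by
  classical
  choose! mk hmk using U.node_ex a b
  refine ⟨fun s => U.zs (π (mk s)), fun s hs => ?_, fun s t hs ht hst => ?_,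
    fun z hz ha hb => ?_⟩
  · obtain ⟨h1, h2, h3, -⟩ := hmk s hs
    have := U.node_S _ (h.node _ h1)
    rwa [h.za _ h1, h.zb _ h1, h2, h3] at this
  · obtain ⟨h1, h2, h3, h4⟩ := hmk s hs
    obtain ⟨h1', h2', h3', h4'⟩ := hmk t ht
    apply h.ord _ _ h1 h1' (h2.trans h2'.symm) (h3.trans h3'.symm)
    rwa [h4, h4']
  · have hs : U.S a b (U.zs z) := by
      have := U.node_S z hz
      rwa [ha, hb] at this
    obtain ⟨h1, h2, h3, h4⟩ := hmk _ hs
    have : mk (U.zs z) = z := U.node_ext _ _ h1 hz (h2.trans ha.symm) (h3.trans hb.symm) h4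
    simp [this]

theorem Good.not_lt {g π : Perm ℕ} (h : U.Good g π) (z : ℕ) (hz : U.Node z)
    (ha : (U.za z).map g = U.za z) : ¬ kb (U.zs (π z)) (U.zs z) := by
  obtain ⟨e, h1, h2, h3⟩ := h.exists_map (U.za z) (U.zb z)
  rw [ha] at h1
  rw [← h3 z hz rfl rfl]
  exact (U.S_wf _ _).not_lt e h1 h2 _ (U.node_S z hz)

theorem Good.fix {g π : Perm ℕ} (h : U.Good g π) (z : ℕ) (hz : U.Node z)
    (ha : (U.za z).map g = U.za z) : π z = z := by
  have hza : U.za (π z) = U.za z := by rw [h.za _ hz, ha]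
  rcases kb_total (U.zs (π z)) (U.zs z) with h1 | h1 | h1
  · exact absurd h1 (h.not_lt z hz ha)
  · exact U.node_ext _ _ (h.node _ hz) hz hza (h.zb _ hz) h1
  · have := h.inv.not_lt (π z) (h.node _ hz) (by
      rw [hza]
      conv_lhs => rw [← ha]
      rw [List.map_map]
      simp)
    simp only [Perm.coe_inv, symm_apply_apply] at this
    exact absurd h1 this

theorem Good.local_eq {g π g' π' : Perm ℕ} (h : U.Good g π) (h' : U.Good g' π') (z : ℕ)
    (hz : U.Node z) (ha : (U.za z).map g = (U.za z).map g') : π z = π' z := by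
  have := (h'.inv.mul h).fix z hz (by
    rw [Perm.coe_mul, ← List.map_map, ha, List.map_map]
    simp)
  simp only [Perm.coe_mul, Function.comp_apply] at this
  rwa [Perm.inv_eq_iff_eq] at this

theorem Good.unique_right {g π π' : Perm ℕ} (h : U.Good g π) (h' : U.Good g π') : π = π' := by
  ext z
  rcases U.cover z with hj | hn | ⟨n, rfl⟩
  · rw [h.junk _ hj, h'.junk _ hj]
  · exact h.local_eq h' z hn rfl
  · rw [h.pt, h'.pt]

theorem Good.unique_left {g g' π : Perm ℕ} (h : U.Good g π) (h' : U.Good g' π) : g = g' := by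
  ext n
  apply U.pt_inj
  rw [← h.pt, h'.pt]

/-- A permutation of the points extends when the attached well-orders embed both ways. -/
theorem exists_good (g : Perm ℕ)
    (H : ∀ a b, ∃ e : List ℕ → List ℕ, (∀ s, U.S a b s → U.S (a.map g) b (e s)) ∧
      ∀ s t, kb s t → kb (e s) (e t))
    (H' : ∀ a b, ∃ e : List ℕ → List ℕ, (∀ s, U.S a b s → U.S (a.map ⇑g⁻¹) b (e s)) ∧
      ∀ s t, kb s t → kb (e s) (e t)) :
    ∃ π, U.Good g π := by
  classical
  have hθ : ∀ a b, ∃ θ : List ℕ → List ℕ, (∀ s, U.S a b s → U.S (a.map g) b (θ s)) ∧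
      (∀ s t, U.S a b s → U.S a b t → kb s t → kb (θ s) (θ t)) ∧
      ∀ t, U.S (a.map g) b t → ∃ s, U.S a b s ∧ θ s = t := by
    intro a b
    obtain ⟨e, h1, h2⟩ := H a b
    obtain ⟨e', h1', h2'⟩ := H' (a.map g) b
    have : (a.map g).map ⇑g⁻¹ = a := by rw [List.map_map]; simp
    rw [this] at h1'
    exact exists_iso (U.S_wf _ _) (U.S_wf _ _) e e' h1 h2 h1' h2'
  choose θ hθ1 hθ2 hθ3 using hθ
  have hex : ∀ z, ∃ w, (U.Junk z → w = z) ∧ (∀ n, z = U.pt n → w = U.pt (g n)) ∧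
      (U.Node z → U.Node w ∧ U.za w = (U.za z).map g ∧ U.zb w = U.zb z ∧
        U.zs w = θ (U.za z) (U.zb z) (U.zs z)) := by
    intro z
    rcases U.cover z with hj | hn | ⟨n, rfl⟩
    · exact ⟨z, fun _ => rfl, fun n hn => absurd (hn ▸ hj) (U.not_junk_pt n),
        fun hn => absurd hj (U.not_junk_node _ hn)⟩
    · obtain ⟨w, hw⟩ := U.node_ex _ _ _ (hθ1 _ _ _ (U.node_S z hn))
      exact ⟨w, fun hj => absurd hj (U.not_junk_node _ hn),
        fun n h => absurd (h ▸ hn) (U.not_node_pt n), fun _ => hw⟩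
    · exact ⟨U.pt (g n), fun hj => absurd hj (U.not_junk_pt n),
        fun m h => by rw [U.pt_inj h], fun hn => absurd hn (U.not_node_pt n)⟩
  choose f hf1 hf2 hf3 using hex
  have hpt : ∀ n, f (U.pt n) = U.pt (g n) := fun n => hf2 _ n rfl
  have hinj : Function.Injective f := by
    intro z w hzw
    rcases U.cover z with hj | hn | ⟨n, rfl⟩ <;> rcases U.cover w with hj' | hn' | ⟨m, rfl⟩
    · rwa [hf1 _ hj, hf1 _ hj'] at hzw
    · have := (hf3 _ hn').1
      rw [← hzw, hf1 _ hj] at this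
      exact absurd hj (U.not_junk_node _ this)
    · rw [hf1 _ hj, hpt] at hzw
      exact absurd (hzw ▸ hj) (U.not_junk_pt _)
    · have := (hf3 _ hn).1
      rw [hzw, hf1 _ hj'] at this
      exact absurd hj' (U.not_junk_node _ this)
    · obtain ⟨-, h2, h3, h4⟩ := hf3 _ hn
      obtain ⟨-, h2', h3', h4'⟩ := hf3 _ hn'
      have ha : U.za z = U.za w := by
        apply List.map_injective_iff.2 g.injective
        rw [← h2, ← h2', hzw]
      have hb : U.zb z = U.zb w := by rw [← h3, ← h3', hzw]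
      have hs : θ (U.za z) (U.zb z) (U.zs z) = θ (U.za z) (U.zb z) (U.zs w) := by
        rw [← h4, hzw, h4', ha, hb]
      have hSz := U.node_S z hn
      have hSw := U.node_S w hn'
      rw [← ha, ← hb] at hSw
      refine U.node_ext _ _ hn hn' ha hb ?_
      rcases kb_total (U.zs z) (U.zs w) with h | h | h
      · have := hθ2 _ _ _ _ hSz hSw h
        rw [hs] at this
        exact absurd this (kb_irrefl _)
      · exact h
      · have := hθ2 _ _ _ _ hSw hSz h
        rw [hs] at this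
        exact absurd this (kb_irrefl _)
    · have := (hf3 _ hn).1
      rw [hzw, hpt] at this
      exact absurd this (U.not_node_pt _)
    · rw [hf1 _ hj', hpt] at hzw
      exact absurd (hzw ▸ hj') (U.not_junk_pt _)
    · have := (hf3 _ hn').1
      rw [← hzw, hpt] at this
      exact absurd this (U.not_node_pt _)
    · rw [hpt, hpt] at hzw
      rw [g.injective (U.pt_inj hzw)]
  have hsurj : Function.Surjective f := by
    intro w
    rcases U.cover w with hj | hn | ⟨n, rfl⟩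
    · exact ⟨w, hf1 _ hj⟩
    · have e1 : ((U.za w).map ⇑g⁻¹).map g = U.za w := by rw [List.map_map]; simp
      have hSw := U.node_S w hn
      rw [← e1] at hSw
      obtain ⟨s, hs1, hs2⟩ := hθ3 _ _ _ hSw
      obtain ⟨z, hz1, hz2, hz3, hz4⟩ := U.node_ex _ _ _ hs1
      obtain ⟨h1, h2, h3, h4⟩ := hf3 _ hz1
      refine ⟨z, U.node_ext _ _ h1 hn ?_ ?_ ?_⟩
      · rw [h2, hz2, e1]
      · rw [h3, hz3]
      · rw [h4, hz2, hz3, hz4, hs2]
    · exact ⟨U.pt (g⁻¹ n), by rw [hpt]; simp⟩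
  refine ⟨Equiv.ofBijective f ⟨hinj, hsurj⟩, hpt, hf1, fun z hz => (hf3 z hz).1,
    fun z hz => (hf3 z hz).2.1, fun z hz => (hf3 z hz).2.2.1, fun z w hz hw ha hb hs => ?_⟩
  simp only [ofBijective_apply]
  rw [(hf3 z hz).2.2.2, (hf3 w hw).2.2.2, ← ha, ← hb]
  have hSw := U.node_S w hw
  rw [← ha, ← hb] at hSw
  exact hθ2 _ _ _ _ (U.node_S z hz) hSw hs

variable (U)

/-- The automorphism group of the structure. -/
def autGroup : Subgroup (Perm ℕ) where
  carrier := {π | U.IsAut π}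
  one_mem' := by intro tag j b l; simp
  mul_mem' := by
    intro π π' h h' tag j b l
    rw [Perm.coe_mul, ← List.map_map, h, h']
  inv_mem' := fun h => IsAut.inv h

theorem main (G : Subgroup (Perm ℕ))
    (H1 : ∀ g ∈ G, ∀ a b, ∃ e : List ℕ → List ℕ, (∀ s, U.S a b s → U.S (a.map g) b (e s)) ∧
      ∀ s t, kb s t → kb (e s) (e t))
    (H2 : ∀ f : Perm ℕ, (∀ a : List ℕ, ∃ e : List ℕ → List ℕ,
      (∀ s, U.S (a.map f) (a.map f) s → U.S a (a.map f) (e s)) ∧
      ∀ s t, U.S (a.map f) (a.map f) s → U.S (a.map f) (a.map f) t → kb s t → kb (e s) (e t)) →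
      f ∈ G) :
    ∃ φ : G ≃* U.autGroup,
      (∀ x : G, ∀ n : ℕ, ∃ m : ℕ, ∀ y : G,
          (∀ k : ℕ, k < m → y.1 k = x.1 k) → (φ y).1 n = (φ x).1 n) ∧
      (∀ x : U.autGroup, ∀ n : ℕ, ∃ m : ℕ, ∀ y : U.autGroup,
          (∀ k : ℕ, k < m → y.1 k = x.1 k) → (φ.symm y).1 n = (φ.symm x).1 n) := by
  have hF : ∀ g : G, ∃ π : U.autGroup, U.Good g.1 π.1 := by
    intro g
    obtain ⟨π, hπ⟩ := exists_good g.1 (H1 _ g.2) (H1 _ (G.inv_mem g.2))
    exact ⟨⟨π, hπ.isAut⟩, hπ⟩
  have hB : ∀ π : U.autGroup, ∃ g : G, U.Good g.1 π.1 := by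
    intro π
    obtain ⟨g, hg⟩ := IsAut.good π.2
    refine ⟨⟨g, H2 g fun a => ?_⟩, hg⟩
    obtain ⟨e, h1, h2, -⟩ := hg.inv.exists_map (a.map g) (a.map g)
    have : (a.map g).map ⇑g⁻¹ = a := by rw [List.map_map]; simp
    rw [this] at h1
    exact ⟨e, h1, h2⟩
  choose F hF using hF
  choose B hB using hB
  let φ : G ≃* U.autGroup :=
    { toFun := F
      invFun := B
      left_inv := fun g => Subtype.ext ((hB (F g)).unique_left (hF g))
      right_inv := fun π => Subtype.ext ((hF (B π)).unique_right (hB π))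
      map_mul' := fun g g' => Subtype.ext ((hF (g * g')).unique_right ((hF g).mul (hF g'))) }
  refine ⟨φ, fun x n => ?_, fun x n => ?_⟩
  · rcases U.cover n with hj | hn | ⟨k, rfl⟩
    · refine ⟨0, fun y _ => ?_⟩
      change (F y).1 n = (F x).1 n
      rw [(hF y).junk _ hj, (hF x).junk _ hj]
    · refine ⟨(U.za n).sum + 1, fun y hy => ?_⟩
      change (F y).1 n = (F x).1 n
      refine (hF y).local_eq (hF x) n hn ?_
      apply List.map_congr_left
      intro k hk
      exact hy k (Nat.lt_succ_of_le (List.single_le_sum (by simp) k hk))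
    · refine ⟨k + 1, fun y hy => ?_⟩
      change (F y).1 _ = (F x).1 _
      rw [(hF y).pt, (hF x).pt, hy k (Nat.lt_succ_self k)]
  · refine ⟨U.pt n + 1, fun y hy => ?_⟩
    change (B y).1 n = (B x).1 n
    apply U.pt_inj
    rw [← (hB y).pt, ← (hB x).pt, hy _ (Nat.lt_succ_self _)]

end Setup

end Pool.Agent.Lib.MP_c89ac5_lc
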