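import Mathlib

/-!
Closure properties of computable predicates.
-/

set_option autoImplicit false

namespace Pool.Agent.Lib.MP_c89ac5_lc

namespace CP

variable {α β : Type} [Primcodable α] [Primcodable β]

theorem comp {p : β → Prop} (hp : ComputablePred p) {f : α → β} (hf : Computable f) :
    ComputablePred fun a => p (f a) := by
  obtain ⟨g, hg, rfl⟩ := ComputablePred.computable_iff.1 hp
  exact ComputablePred.computable_iff.2 ⟨fun a => g (f a), hg.comp hf, rfl⟩

theorem bool {f : α → Bool} (hf : Computable f) : ComputablePred fun a => f a = true :=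
  ComputablePred.computable_iff.2 ⟨f, hf, rfl⟩

theorem and {p q : α → Prop} (hp : ComputablePred p) (hq : ComputablePred q) :
    ComputablePred fun a => p a ∧ q a := by
  obtain ⟨f, hf, rfl⟩ := ComputablePred.computable_iff.1 hp
  obtain ⟨g, hg, rfl⟩ := ComputablePred.computable_iff.1 hq
  refine ComputablePred.computable_iff.2
    ⟨fun a => f a && g a, (Primrec.and.to_comp.comp hf hg), ?_⟩
  funext a
  simp

theorem or {p q : α → Prop} (hp : ComputablePred p) (hq : ComputablePred q) :
    ComputablePred fun a => p a ∨ q a := by
  obtain ⟨f, hf, rfl⟩ := ComputablePred.computable_iff.1 hp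
  obtain ⟨g, hg, rfl⟩ := ComputablePred.computable_iff.1 hq
  refine ComputablePred.computable_iff.2
    ⟨fun a => f a || g a, (Primrec.or.to_comp.comp hf hg), ?_⟩
  funext a
  simp

theorem imp {p q : α → Prop} (hp : ComputablePred p) (hq : ComputablePred q) :
    ComputablePred fun a => p a → q a :=
  (or hp.not hq).of_eq fun _ => by tauto

theorem eq {f g : α → β} (hf : Computable f) (hg : Computable g) :
    ComputablePred fun a => f a = g a := by
  have : ComputablePred fun p : β × β => p.1 = p.2 :=
    PrimrecPred.computablePred (Primrec.eq.comp Primrec.fst Primrec.snd)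
  exact comp this (hf.pair hg)

theorem lt {f g : α → ℕ} (hf : Computable f) (hg : Computable g) :
    ComputablePred fun a => f a < g a := by
  have : ComputablePred fun p : ℕ × ℕ => p.1 < p.2 :=
    PrimrecPred.computablePred (Primrec.nat_lt.comp Primrec.fst Primrec.snd)
  exact comp this (hf.pair hg)

theorem le {f g : α → ℕ} (hf : Computable f) (hg : Computable g) :
    ComputablePred fun a => f a ≤ g a :=
  (lt hg hf).not.of_eq fun _ => by simp

theorem forall_lt {p : α → ℕ → Prop} (hp : ComputablePred fun x : α × ℕ => p x.1 x.2)
    {f : α → ℕ} (hf : Computable f) : ComputablePred fun a => ∀ n < f a, p a n := by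
  obtain ⟨g, hg, hpg⟩ := ComputablePred.computable_iff.1 hp
  have hpg' : ∀ a n, p a n ↔ g (a, n) = true := fun a n => by
    have := congrFun hpg (a, n)
    simp only at this
    rw [this]
  have key : Computable fun a => Nat.rec (motive := fun _ => Bool) true
      (fun y IH => (fun (a : α) (x : ℕ × Bool) => x.2 && g (a, x.1)) a (y, IH)) (f a) :=
    Computable.nat_rec hf (Computable.const true)
      (Primrec.and.to_comp.comp (Computable.snd.comp Computable.snd)
        (hg.comp (Computable.fst.pair (Computable.fst.comp Computable.snd)))).to₂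
  refine (bool key).of_eq fun a => ?_
  induction f a with
  | zero => simp
  | succ n ih =>
    simp only [Bool.and_eq_true] at ih ⊢
    rw [ih, ← hpg']
    constructor
    · rintro ⟨h1, h2⟩ m hm
      rcases Nat.lt_succ_iff_lt_or_eq.1 hm with h | rfl
      · exact h1 m h
      · exact h2
    · intro h
      exact ⟨fun m hm => h m (Nat.lt_succ_of_lt hm), h n (Nat.lt_succ_self n)⟩

theorem exists_lt {p : α → ℕ → Prop} (hp : ComputablePred fun x : α × ℕ => p x.1 x.2)
    {f : α → ℕ} (hf : Computable f) : ComputablePred fun a => ∃ n < f a, p a n :=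
  (forall_lt (p := fun a n => ¬ p a n) hp.not hf).not.of_eq fun _ => by simp

end CP

end Pool.Agent.Lib.MP_c89ac5_lc
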