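import Mathlib
import Pool.Agent.Lib.MP_c89ac5_lc.KB

/-!
The step relation whose trees are attached to pairs of tuples.

A link records a pair of tuples `(c, d)` and finite approximations to a group element sending
`c` to `d` and to its inverse.  A state is `top` (tag 0), `init a b` (tag 1) or a list of links
(tag 2).  From `init a b` one chooses a chain of links from `a` to `b`, and then extends all links
simultaneously.  From `top` one chooses a pair `(a, b)` refuted at a finite stage.
-/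

set_option autoImplicit false

namespace Pool.Agent.Lib.MP_c89ac5_lc

open Equiv

abbrev Link := (List ℕ × List ℕ) × (List ℕ × List ℕ)

abbrev St := ℕ × (List ℕ × List ℕ) × List Link

def Compat (c d τ : List ℕ) : Prop :=
  c.length = d.length ∧ ∀ i < c.length, c.getD i 0 < τ.length → τ.getD (c.getD i 0) 0 = d.getD i 0

def Chain (a b : List ℕ) (L : List Link) : Prop :=
  a :: L.map (fun p => p.1.2) = L.map (fun p => p.1.1) ++ [b] ∧
    L.map (fun p => p.2) = L.map (fun _ => ([], []))

section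

variable (T : List ℕ → List ℕ → Bool)

def LStep (p q : Link) : Prop :=
  q.1 = p.1 ∧ q.2.1 = p.2.1 ++ [q.2.1.getD p.2.1.length 0] ∧
    q.2.2 = p.2.2 ++ [q.2.2.getD p.2.2.length 0] ∧ T q.2.1 q.2.2 = true ∧
    Compat q.1.1 q.1.2 q.2.1

def Ext (L M : List Link) : Prop :=
  L.length = M.length ∧ ∀ i < L.length, LStep T (L.getI i) (M.getI i)

def Dead (a b : List ℕ) : Prop :=
  a.take (a.length / 2) = List.range (a.length / 2) ∧
    b.drop (a.length / 2) = List.range (a.length / 2) ∧
    T (b.take (a.length / 2)) (a.drop (a.length / 2)) = false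

def Step (x y : St) : Prop :=
  (x.1 = 0 ∧ y.1 = 1 ∧ Dead T y.2.1.1 y.2.1.2) ∨
  (x.1 = 1 ∧ y.1 = 2 ∧ Chain x.2.1.1 x.2.1.2 y.2.2) ∨
  (x.1 = 2 ∧ y.1 = 2 ∧ Ext T x.2.2 y.2.2)

def PStep (x y : St × St) : Prop := Step T x.1 y.1 ∧ Step T x.2 y.2

end

def root (a b : List ℕ) : St × St := ((1, (a, b), []), (0, ([], []), []))

def decD (α : Type) [Primcodable α] [Inhabited α] (n : ℕ) : α :=
  (Encodable.decode (α := α) n).getD default

def encP {α : Type} [Primcodable α] (a : α) : ℕ := Encodable.encode a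

theorem decD_encP {α : Type} [Primcodable α] [Inhabited α] (a : α) : decD α (encP a) = a := by
  simp [decD, encP]

theorem primrec_decD (α : Type) [Primcodable α] [Inhabited α] : Primrec (decD α) :=
  Primrec.option_getD.comp Primrec.decode (Primrec.const _)

theorem primrec_encP {α : Type} [Primcodable α] : Primrec (encP : α → ℕ) := Primrec.encode

def dec (l : ℕ) : St × St := decD (St × St) l.unpair.1

theorem dec_surj (v : St × St) (N : ℕ) : ∃ l, N ≤ l ∧ dec l = v :=
  ⟨Nat.pair (encP v) N, Nat.right_le_pair _ _, by simp [dec, decD_encP]⟩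

/-- The tree attached to the pair of tuples `(a, b)`. -/
def Tr (T : List ℕ → List ℕ → Bool) (a b : List ℕ) (s : List ℕ) : Prop :=
  InTree (PStep T) dec (root a b) s

section

variable {G : Subgroup (Perm ℕ)} {T : List ℕ → List ℕ → Bool}
  (hT : ∀ f g : ℕ → ℕ,
    (∀ n : ℕ, T ((List.range n).map f) ((List.range n).map g) = true) ↔
      ∃ σ ∈ G, (⇑σ = f ∧ ⇑σ.symm = g))

theorem seq_eq_range (u : ℕ → List ℕ) (h0 : u 0 = [])
    (h : ∀ n, u (n + 1) = u n ++ [(u (n + 1)).getD (u n).length 0]) :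
    ∃ f : ℕ → ℕ, ∀ n, u n = (List.range n).map f := by
  refine ⟨fun k => (u (k + 1)).getD (u k).length 0, fun n => ?_⟩
  induction n with
  | zero => simpa using h0
  | succ n ih =>
    rw [List.range_succ, List.map_append, ← ih]
    exact h n

include hT

theorem link_path (p : ℕ → Link) (h0 : (p 0).2 = ([], [])) (h : ∀ n, LStep T (p n) (p (n + 1))) :
    ∃ g ∈ G, (p 0).1.1.map g = (p 0).1.2 := by
  obtain ⟨f, hf⟩ := seq_eq_range (fun n => (p n).2.1) (by simp [h0]) (fun n => (h n).2.1)
  obtain ⟨f', hf'⟩ := seq_eq_range (fun n => (p n).2.2) (by simp [h0]) (fun n => (h n).2.2.1)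
  have hconst : ∀ n, (p n).1 = (p 0).1 := by
    intro n
    induction n with
    | zero => rfl
    | succ n ih => rw [(h n).1, ih]
  obtain ⟨σ, hσ, rfl, -⟩ := (hT f f').1 (by
    intro n
    cases n with
    | zero =>
      have := (hT id id).2 ⟨1, G.one_mem, rfl, rfl⟩ 0
      simpa using this
    | succ n =>
      rw [← hf, ← hf']
      exact (h n).2.2.2.1)
  refine ⟨σ, hσ, ?_⟩
  have hlen : (p 0).1.1.length = (p 0).1.2.length := by
    have := (h 0).2.2.2.2.1
    rwa [hconst 1] at this
  apply List.ext_getElem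
  · simpa using hlen
  · intro i h1 h2
    have h1' : i < (p 0).1.1.length := by simpa using h1
    have := (h ((p 0).1.1.getD i 0)).2.2.2.2.2
    rw [hconst] at this
    have := this i h1' (by
      rw [hf ((p 0).1.1.getD i 0 + 1)]; simp)
    rw [hf ((p 0).1.1.getD i 0 + 1)] at this
    simpa [List.getD_eq_getElem?_getD, h1', h2] using this

omit hT in
theorem chain_mem : ∀ (L : List Link) (a b : List ℕ),
    a :: L.map (fun p => p.1.2) = L.map (fun p => p.1.1) ++ [b] →
    (∀ p ∈ L, ∃ g ∈ G, p.1.1.map g = p.1.2) → ∃ g ∈ G, a.map g = b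
  | [], a, b, h, _ => ⟨1, G.one_mem, by simpa using h⟩
  | p :: L, a, b, h, hL => by
    simp only [List.map_cons, List.cons_append, List.cons.injEq] at h
    obtain ⟨g, hg, e⟩ := hL p (by simp)
    obtain ⟨g', hg', e'⟩ := chain_mem L p.1.2 b h.2 (fun q hq => hL q (by simp [hq]))
    refine ⟨g' * g, G.mul_mem hg' hg, ?_⟩
    rw [Perm.coe_mul, ← List.map_map, h.1, e, e']

theorem not_dead {g : Perm ℕ} (hg : g ∈ G) (a : List ℕ) : ¬ Dead T a (a.map g) := by
  rintro ⟨h1, h2, h3⟩
  have := (hT g g.symm).2 ⟨g, hg, rfl, rfl⟩ (a.length / 2)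
  rw [← List.map_take, h1] at h3
  have h4 : a.drop (a.length / 2) = (List.range (a.length / 2)).map g.symm := by
    rw [← h2, ← List.map_drop, List.map_map]
    simp
  rw [h4, this] at h3
  simp at h3

theorem mem_of_not_dead (f : Perm ℕ) (h : ∀ a : List ℕ, ¬ Dead T a (a.map f)) : f ∈ G := by
  obtain ⟨σ, hσ, e, -⟩ := (hT f f.symm).1 (by
    intro n
    have := h (List.range n ++ (List.range n).map f.symm)
    have hl : (List.range n ++ (List.range n).map f.symm).length / 2 = n := by
      simp; omega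
    unfold Dead at this
    rw [hl] at this
    by_contra hc
    apply this
    refine ⟨by simp, ?_, ?_⟩
    · simp [List.map_map]
    · simpa using hc)
  have : σ = f := DFunLike.coe_injective e
  rwa [← this]

theorem acc_root (a b : List ℕ) : Acc (fun y x => PStep T x y) (root a b) := by
  rw [acc_iff_isEmpty_descending_chain]
  refine ⟨fun ⟨u, h0, hu⟩ => ?_⟩
  let x : ℕ → St := fun n => (u n).2
  have hx : ∀ n, Step T (x n) (x (n + 1)) := fun n => (hu n).2
  have hx0 : (x 0).1 = 0 := by simp [x, h0, root]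
  have h1 : (x 1).1 = 1 ∧ Dead T (x 1).2.1.1 (x 1).2.1.2 := by
    rcases hx 0 with h | h | h
    · exact h.2
    · omega
    · omega
  have h2 : (x 2).1 = 2 ∧ Chain (x 1).2.1.1 (x 1).2.1.2 (x 2).2.2 := by
    rcases hx 1 with h | h | h
    · omega
    · exact h.2
    · omega
  have h3 : ∀ n, (x (n + 2)).1 = 2 := by
    intro n
    induction n with
    | zero => exact h2.1
    | succ n ih =>
      rcases hx (n + 2) with h | h | h
      · omega
      · omega
      · exact h.2.1
  have h4 : ∀ n, Ext T (x (n + 2)).2.2 (x (n + 3)).2.2 := by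
    intro n
    have := h3 n
    rcases hx (n + 2) with h | h | h
    · omega
    · omega
    · exact h.2.2
  have h5 : ∀ n, (x (n + 2)).2.2.length = (x 2).2.2.length := by
    intro n
    induction n with
    | zero => rfl
    | succ n ih => rw [← ih]; exact (h4 n).1.symm
  obtain ⟨g, hg, e⟩ := chain_mem (G := G) _ _ _ h2.2.1 (by
    intro p hp
    obtain ⟨i, hi, rfl⟩ := List.getElem_of_mem hp
    have := link_path hT (fun n => (x (n + 2)).2.2.getI i) (by
      have := congrArg (fun l => l[i]?) h2.2.2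
      simpa [List.getI_eq_getElem _ hi, hi] using this)
      (fun n => (h4 n).2 i (by rw [h5]; exact hi))
    simpa [List.getI_eq_getElem _ hi] using this)
  exact not_dead hT hg _ (e ▸ h1.2)

theorem tr_wf (a b : List ℕ) : KBWF (Tr T a b) := acc_kb _ _ (acc_root hT a b)

/-- Invariance: the trees embed along the action of the group. -/
theorem tr_emb {g : Perm ℕ} (hg : g ∈ G) (a b : List ℕ) :
    ∃ e : List ℕ → List ℕ, (∀ s, Tr T a b s → Tr T (a.map g) b (e s)) ∧
      ∀ s t, kb s t → kb (e s) (e t) := by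
  let lk : ℕ → Link := fun n =>
    ((a.map g, a), ((List.range n).map g.symm, (List.range n).map g))
  have hlk : ∀ n, LStep T (lk n) (lk (n + 1)) := by
    intro n
    refine ⟨rfl, by simp [lk, List.range_succ], by simp [lk, List.range_succ], ?_, by simp [lk], ?_⟩
    · exact (hT g.symm g).2 ⟨g⁻¹, G.inv_mem hg, rfl, rfl⟩ (n + 1)
    · intro i hi h
      have hi' : i < a.length := by simpa [lk] using hi
      simp only [lk, List.length_map, List.length_range] at h ⊢
      simp only [List.getD_eq_getElem?_getD, List.getElem?_map, hi', List.getElem?_eq_getElem,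
        Option.map_some, Option.getD_some] at h ⊢
      rw [List.getElem?_range h]
      simp
  apply exists_emb (PStep T) dec dec_surj
    (fun u v => u.2 = v.2 ∧ ((u.1.1 = 1 ∧ v.1.1 = 1 ∧ u.1.2.1 = (a, b) ∧ v.1.2.1 = (a.map g, b)) ∨
      (u.1.1 = 2 ∧ v.1.1 = 2 ∧ ∃ n, v.1.2.2 = lk n :: u.1.2.2)))
  · rintro u v ⟨h2, h⟩ u' ⟨s1, s2⟩
    rcases h with ⟨hu, hv, hu', hv'⟩ | ⟨hu, hv, n, hn⟩
    · rcases s1 with s1 | ⟨-, s1, s1'⟩ | s1
      · omega
      · refine ⟨((2, ([], []), lk 0 :: u'.1.2.2), u'.2), ⟨?_, h2 ▸ s2⟩, rfl,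
          Or.inr ⟨s1, rfl, 0, rfl⟩⟩
        refine Or.inr (Or.inl ⟨hv, rfl, ?_⟩)
        rw [hu'] at s1'
        rw [hv']
        refine ⟨?_, ?_⟩
        · have := s1'.1
          simp only at this
          simp [lk, this]
        · have := s1'.2
          simp [lk, this]
      · omega
    · rcases s1 with s1 | s1 | ⟨-, s1, s1'⟩
      · omega
      · omega
      · refine ⟨((2, ([], []), lk (n + 1) :: u'.1.2.2), u'.2), ⟨?_, h2 ▸ s2⟩, rfl,
          Or.inr ⟨s1, rfl, n + 1, rfl⟩⟩
        refine Or.inr (Or.inr ⟨hv, rfl, ?_⟩)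
        rw [hn]
        refine ⟨by simp [s1'.1], fun i hi => ?_⟩
        cases i with
        | zero => simpa using hlk n
        | succ i => simpa using s1'.2 i (by simpa using hi)
  · exact ⟨rfl, Or.inl ⟨rfl, rfl, rfl, rfl⟩⟩

/-- Strictness: a refuted pair has a strictly shorter order than a diagonal pair. -/
theorem tr_strict {a b : List ℕ} (hd : Dead T a b) (e : List ℕ → List ℕ)
    (h1 : ∀ s, Tr T b b s → Tr T a b (e s))
    (h2 : ∀ s t, Tr T b b s → Tr T b b t → kb s t → kb (e s) (e t)) : False := by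
  let y' : St × St := ((2, ([], []), []), (1, (a, b), []))
  obtain ⟨l, -, hl⟩ := dec_surj y' 0
  have hy : PStep T (root b b) y' :=
    ⟨Or.inr (Or.inl ⟨rfl, rfl, by simp [root, y', Chain]⟩), Or.inl ⟨rfl, rfl, hd⟩⟩
  obtain ⟨e', h1', h2'⟩ := exists_emb (PStep T) dec dec_surj
    (fun u v => v.1.1 = 2 ∧ v.1.2.2 = [] ∧ v.2 = u.1) (by
      rintro u v ⟨hv1, hv2, hv3⟩ u' ⟨s1, -⟩
      refine ⟨(v.1, u'.1), ⟨Or.inr (Or.inr ⟨hv1, hv1, ?_⟩), hv3 ▸ s1⟩, hv1, hv2, rfl⟩
      simp [hv2, Ext]) (x := root a b) (y := y') ⟨rfl, rfl, rfl⟩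
  refine (tr_wf hT b b).not_lt (fun s => l :: e' (e s)) ?_ ?_ [] (inTree_nil _ _ _) (by simp)
  · intro s hs
    refine ⟨hl ▸ hy, ?_⟩
    rw [hl]
    exact h1' _ (h1 s hs)
  · intro s t hs ht hst
    exact Or.inr ⟨rfl, h2' _ _ (h2 s t hs ht hst)⟩

end

end Pool.Agent.Lib.MP_c89ac5_lc
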