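import Mathlib
import Pool.Agent.Lib.MP_c89ac5_lc.KB
import Pool.Agent.Lib.MP_c89ac5_lc.Aut
import Pool.Agent.Lib.MP_c89ac5_lc.CP
import Pool.Agent.Lib.MP_c89ac5_lc.Tree

/-!
Computability of the trees and of the relations of the structure.
-/

set_option autoImplicit false

namespace Pool.Agent.Lib.MP_c89ac5_lc

open Equiv Computable

theorem c_getD {α : Type} [Primcodable α] {f : α → List ℕ} {g : α → ℕ} (hf : Computable f)
    (hg : Computable g) : Computable fun a => (f a).getD (g a) 0 :=
  (Primrec.list_getD 0).to_comp.comp hf hg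

theorem c_getI {α β : Type} [Primcodable α] [Primcodable β] [Inhabited β] {f : α → List β}
    {g : α → ℕ} (hf : Computable f) (hg : Computable g) :
    Computable fun a => (f a).getI (g a) :=
  Primrec.list_getI.to_comp.comp hf hg

theorem c_take {α : Type} [Primcodable α] {f : α → List ℕ} {g : α → ℕ} (hg : Computable g)
    (hf : Computable f) : Computable fun a => (f a).take (g a) :=
  Primrec.list_take.to_comp.comp hg hf

theorem c_drop {α : Type} [Primcodable α] {f : α → List ℕ} {g : α → ℕ} (hg : Computable g)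
    (hf : Computable f) : Computable fun a => (f a).drop (g a) :=
  Primrec.list_drop.to_comp.comp hg hf

theorem c_map {α β γ : Type} [Primcodable α] [Primcodable β] [Primcodable γ] {f : α → List β}
    {g : β → γ} (hf : Computable f) (hg : Primrec g) : Computable fun a => (f a).map g := by
  have : Primrec fun l : List β => l.map g :=
    Primrec.list_map Primrec.id (hg.comp Primrec.snd).to₂
  exact this.to_comp.comp hf

theorem c_len {α β : Type} [Primcodable α] [Primcodable β] {f : α → List β}
    (hf : Computable f) : Computable fun a => (f a).length := list_length.comp hf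

theorem cp_kb : ComputablePred fun x : List ℕ × List ℕ => kb x.1 x.2 := by
  refine ComputablePred.of_eq ?_ fun x => (kb_iff x.1 x.2).symm
  refine CP.exists_lt (p := fun (x : List ℕ × List ℕ) n => x.1.take n = x.2.take n ∧
    (x.2.length ≤ n ∨ x.1.getD n 0 < x.2.getD n 0)) ?_ (c_len fst)
  exact CP.and (CP.eq (c_take snd (fst.comp fst)) (c_take snd (snd.comp fst)))
    (CP.or (CP.le (c_len (snd.comp fst)) snd)
      (CP.lt (c_getD (fst.comp fst) snd) (c_getD (snd.comp fst) snd)))

theorem cp_compat : ComputablePred fun x : (List ℕ × List ℕ) × List ℕ =>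
    Compat x.1.1 x.1.2 x.2 := by
  unfold Compat
  refine CP.and (CP.eq (c_len (fst.comp fst)) (c_len (snd.comp fst))) ?_
  refine CP.forall_lt (p := fun (x : (List ℕ × List ℕ) × List ℕ) i =>
    x.1.1.getD i 0 < x.2.length → x.2.getD (x.1.1.getD i 0) 0 = x.1.2.getD i 0) ?_
    (c_len (fst.comp fst))
  have h1 : Computable fun y : ((List ℕ × List ℕ) × List ℕ) × ℕ => y.1.1.1.getD y.2 0 :=
    c_getD (fst.comp (fst.comp fst)) snd
  exact CP.imp (CP.lt h1 (c_len (snd.comp fst)))
    (CP.eq (c_getD (snd.comp fst) h1) (c_getD (snd.comp (fst.comp fst)) snd))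

theorem cp_chain : ComputablePred fun x : (List ℕ × List ℕ) × List Link =>
    Chain x.1.1 x.1.2 x.2 := by
  unfold Chain
  refine CP.and (CP.eq ?_ ?_) (CP.eq ?_ ?_)
  · exact list_cons.comp (fst.comp fst) (c_map snd (Primrec.snd.comp Primrec.fst))
  · exact list_concat.comp (c_map snd (Primrec.fst.comp Primrec.fst)) (snd.comp fst)
  · exact c_map snd Primrec.snd
  · exact c_map snd (Primrec.const _)

section

variable {T : List ℕ → List ℕ → Bool} (hT : Computable₂ T)

include hT

theorem cp_lstep : ComputablePred fun x : Link × Link => LStep T x.1 x.2 := by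
  unfold LStep
  have p21 : Computable fun x : Link × Link => x.1.2.1 := fst.comp (snd.comp fst)
  have p22 : Computable fun x : Link × Link => x.1.2.2 := snd.comp (snd.comp fst)
  have q21 : Computable fun x : Link × Link => x.2.2.1 := fst.comp (snd.comp snd)
  have q22 : Computable fun x : Link × Link => x.2.2.2 := snd.comp (snd.comp snd)
  refine CP.and (CP.eq (fst.comp snd) (fst.comp fst)) (CP.and (CP.eq q21 ?_)
    (CP.and (CP.eq q22 ?_) (CP.and (CP.bool (hT.comp q21 q22)) ?_)))
  · exact list_concat.comp p21 (c_getD q21 (c_len p21))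
  · exact list_concat.comp p22 (c_getD q22 (c_len p22))
  · exact CP.comp cp_compat ((fst.comp snd).pair q21)

theorem cp_ext : ComputablePred fun x : List Link × List Link => Ext T x.1 x.2 := by
  unfold Ext
  refine CP.and (CP.eq (c_len fst) (c_len snd)) ?_
  refine CP.forall_lt (p := fun (x : List Link × List Link) i =>
    LStep T (x.1.getI i) (x.2.getI i)) ?_ (c_len fst)
  exact CP.comp (cp_lstep hT) ((c_getI (fst.comp fst) snd).pair (c_getI (snd.comp fst) snd))

theorem cp_dead : ComputablePred fun x : List ℕ × List ℕ => Dead T x.1 x.2 := by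
  unfold Dead
  have h : Computable fun x : List ℕ × List ℕ => x.1.length / 2 :=
    Primrec.nat_div.to_comp.comp (c_len fst) (const 2)
  have hr : Computable fun x : List ℕ × List ℕ => List.range (x.1.length / 2) :=
    Primrec.list_range.to_comp.comp h
  exact CP.and (CP.eq (c_take h fst) hr) (CP.and (CP.eq (c_drop h snd) hr)
    (CP.eq (hT.comp (c_take h snd) (c_drop h fst)) (const false)))

theorem cp_step : ComputablePred fun x : St × St => Step T x.1 x.2 := by
  unfold Step
  have x1 : Computable fun x : St × St => x.1.1 := fst.comp fst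
  have y1 : Computable fun x : St × St => x.2.1 := fst.comp snd
  have x21 : Computable fun x : St × St => x.1.2.1 := fst.comp (snd.comp fst)
  have y21 : Computable fun x : St × St => x.2.2.1 := fst.comp (snd.comp snd)
  have x22 : Computable fun x : St × St => x.1.2.2 := snd.comp (snd.comp fst)
  have y22 : Computable fun x : St × St => x.2.2.2 := snd.comp (snd.comp snd)
  refine CP.or (CP.and (CP.eq x1 (const 0)) (CP.and (CP.eq y1 (const 1)) ?_))
    (CP.or (CP.and (CP.eq x1 (const 1)) (CP.and (CP.eq y1 (const 2)) ?_))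
      (CP.and (CP.eq x1 (const 2)) (CP.and (CP.eq y1 (const 2)) ?_)))
  · exact CP.comp (cp_dead hT) y21
  · exact CP.comp cp_chain (x21.pair y22)
  · exact CP.comp (cp_ext hT) (x22.pair y22)

theorem cp_pstep : ComputablePred fun x : (St × St) × (St × St) => PStep T x.1 x.2 := by
  unfold PStep
  exact CP.and (CP.comp (cp_step hT) ((fst.comp fst).pair (fst.comp snd)))
    (CP.comp (cp_step hT) ((snd.comp fst).pair (snd.comp snd)))

omit hT in
theorem primrec_dec : Primrec dec :=
  (primrec_decD _).comp (Primrec.fst.comp Primrec.unpair)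

omit hT in
theorem c_root : Computable fun x : List ℕ × List ℕ => root x.1 x.2 := by
  unfold root
  exact ((const 1).pair ((fst.pair snd).pair (const []))).pair (const _)

omit hT in
theorem cp_inTree {X : Type} [Primcodable X] [Inhabited X] {step : X → X → Prop}
    (hs : ComputablePred fun x : X × X => step x.1 x.2) {d : ℕ → X} (hd : Primrec d) :
    ComputablePred fun x : X × List ℕ => InTree step d x.1 x.2 := by
  refine ComputablePred.of_eq ?_ fun x => (inTree_iff step d x.2 x.1).symm
  refine CP.forall_lt (p := fun (x : X × List ℕ) i =>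
    step ((x.1 :: x.2.map d).getI i) (d (x.2.getD i 0))) ?_ (c_len snd)
  have h1 : Computable fun y : (X × List ℕ) × ℕ => (y.1.1 :: y.1.2.map d).getI y.2 :=
    c_getI (list_cons.comp (fst.comp fst) (c_map (snd.comp fst) hd)) snd
  have h2 : Computable fun y : (X × List ℕ) × ℕ => d (y.1.2.getD y.2 0) :=
    hd.to_comp.comp (c_getD (snd.comp fst) snd)
  exact CP.comp hs (h1.pair h2)

theorem cp_tr : ComputablePred fun x : List ℕ × List ℕ × List ℕ => Tr T x.1 x.2.1 x.2.2 := by
  have h0 : Computable fun y : List ℕ × List ℕ × List ℕ => (y.1, y.2.1) :=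
    fst.pair (fst.comp snd)
  have h1 : Computable fun y : List ℕ × List ℕ × List ℕ => root y.1 y.2.1 :=
    (c_root.comp h0).of_eq fun _ => rfl
  have h2 : Computable fun y : List ℕ × List ℕ × List ℕ => y.2.2 := snd.comp snd
  exact (CP.comp (cp_inTree (cp_pstep hT) primrec_dec) (h1.pair h2)).of_eq fun _ => Iff.rfl

end

/-- The triple coded by an even number. -/
def yy (z : ℕ) : List ℕ × List ℕ × List ℕ := decD (List ℕ × List ℕ × List ℕ) (z / 2)

def IsNode (T : List ℕ → List ℕ → Bool) (z : ℕ) : Prop :=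
  z = 2 * encP (yy z) ∧ Tr T (yy z).1 (yy z).2.1 (yy z).2.2

def IsJunk (T : List ℕ → List ℕ → Bool) (z : ℕ) : Prop := z % 2 = 0 ∧ ¬ IsNode T z

/-- The concrete coding: odd numbers are points, even numbers are nodes or junk. -/
def setup (T : List ℕ → List ℕ → Bool) (hwf : ∀ a b, KBWF (Tr T a b)) : Setup where
  pt := fun n => 2 * n + 1
  Node := IsNode T
  Junk := IsJunk T
  za := fun z => (yy z).1
  zb := fun z => (yy z).2.1
  zs := fun z => (yy z).2.2
  S := Tr T
  pt_inj := fun a b h => by simpa using h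
  not_node_pt := fun n h => by have := h.1; omega
  not_junk_pt := fun n h => by have := h.1; omega
  not_junk_node := fun z h h' => h'.2 h
  cover := fun z => by
    by_cases h : z % 2 = 0
    · by_cases h' : IsNode T z
      · exact Or.inr (Or.inl h')
      · exact Or.inl ⟨h, h'⟩
    · exact Or.inr (Or.inr ⟨z / 2, by omega⟩)
  node_ext := fun z w hz hw h1 h2 h3 => by
    have : yy z = yy w := Prod.ext h1 (Prod.ext h2 h3)
    rw [hz.1, hw.1]
    conv_lhs => rw [this]
  node_S := fun z hz => hz.2
  node_ex := fun a b s h => by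
    have e : yy (2 * encP (a, b, s)) = (a, b, s) := by
      simp [yy, decD_encP]
    refine ⟨2 * encP (a, b, s), ⟨by rw [e], by rw [e]; exact h⟩, ?_, ?_, ?_⟩ <;> simp [e]
  S_nil := fun a b => inTree_nil _ _ _
  S_wf := hwf

theorem c_yy : Computable yy :=
  ((primrec_decD _).comp (Primrec.nat_div.comp Primrec.id (Primrec.const 2))).to_comp

section

variable {T : List ℕ → List ℕ → Bool} (hT : Computable₂ T)

include hT

theorem cp_node : ComputablePred (IsNode T) := by
  unfold IsNode
  exact CP.and (CP.eq Computable.id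
    (Primrec.nat_mul.to_comp.comp (const 2) (primrec_encP.to_comp.comp c_yy)))
    (CP.comp (cp_tr hT) c_yy)

theorem cp_junk : ComputablePred (IsJunk T) := by
  unfold IsJunk
  exact CP.and (CP.eq (Primrec.nat_mod.to_comp.comp Computable.id (const 2)) (const 0))
    (cp_node hT).not

theorem cp_rel (hwf : ∀ a b, KBWF (Tr T a b)) :
    ComputablePred fun x : (ℕ × ℕ × List ℕ) × List ℕ =>
      (setup T hwf).Rel x.1.1 x.1.2.1 x.1.2.2 x.2 := by
  have tag : Computable fun x : (ℕ × ℕ × List ℕ) × List ℕ => x.1.1 := fst.comp fst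
  have j : Computable fun x : (ℕ × ℕ × List ℕ) × List ℕ => x.1.2.1 := fst.comp (snd.comp fst)
  have b : Computable fun x : (ℕ × ℕ × List ℕ) × List ℕ => x.1.2.2 := snd.comp (snd.comp fst)
  have z : Computable fun x : (ℕ × ℕ × List ℕ) × List ℕ => x.2.getD 0 0 := c_getD snd (const 0)
  have w : Computable fun x : (ℕ × ℕ × List ℕ) × List ℕ => x.2.getD 1 0 := c_getD snd (const 1)
  have yz := c_yy.comp z
  have yw := c_yy.comp w
  have key : ComputablePred fun x : (ℕ × ℕ × List ℕ) × List ℕ =>
      (x.1.1 = 0 ∧ x.2 = [x.1.2.1] ∧ IsJunk T x.1.2.1) ∨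
      (x.1.1 = 1 ∧ IsNode T (x.2.getD 0 0) ∧
        x.2 = x.2.getD 0 0 :: (yy (x.2.getD 0 0)).1.map (fun n => 2 * n + 1) ∧
        (yy (x.2.getD 0 0)).2.1 = x.1.2.2) ∨
      (x.1.1 = 2 ∧ x.2 = [x.2.getD 0 0, x.2.getD 1 0] ∧ IsNode T (x.2.getD 0 0) ∧
        IsNode T (x.2.getD 1 0) ∧ (yy (x.2.getD 0 0)).1 = (yy (x.2.getD 1 0)).1 ∧
        (yy (x.2.getD 0 0)).2.1 = (yy (x.2.getD 1 0)).2.1 ∧
        kb (yy (x.2.getD 0 0)).2.2 (yy (x.2.getD 1 0)).2.2) := by
    refine CP.or (CP.and (CP.eq tag (const 0)) (CP.and (CP.eq snd ?_) (CP.comp (cp_junk hT) j)))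
      (CP.or (CP.and (CP.eq tag (const 1)) (CP.and (CP.comp (cp_node hT) z)
        (CP.and (CP.eq snd ?_) (CP.eq (fst.comp (snd.comp yz)) b))))
      (CP.and (CP.eq tag (const 2)) (CP.and (CP.eq snd ?_) (CP.and (CP.comp (cp_node hT) z)
        (CP.and (CP.comp (cp_node hT) w) (CP.and (CP.eq (fst.comp yz) (fst.comp yw))
          (CP.and (CP.eq (fst.comp (snd.comp yz)) (fst.comp (snd.comp yw))) ?_)))))))
    · exact list_cons.comp j (const [])
    · exact list_cons.comp z (c_map (fst.comp yz) Primrec.nat_double_succ)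
    · exact list_cons.comp z (list_cons.comp w (const []))
    · exact CP.comp cp_kb ((snd.comp (snd.comp yz)).pair (snd.comp (snd.comp yw)))
  refine key.of_eq fun x => ?_
  unfold Setup.Rel
  refine or_congr Iff.rfl (or_congr (and_congr Iff.rfl ?_) (and_congr Iff.rfl ?_))
  · constructor
    · intro h
      exact ⟨_, h⟩
    · rintro ⟨z, h1, h2, h3⟩
      have : x.2.getD 0 0 = z := by rw [h2]; simp
      rw [this]
      exact ⟨h1, h2, h3⟩
  · constructor
    · intro h
      exact ⟨_, _, h⟩
    · rintro ⟨z, w, h1, h2⟩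
      have e1 : x.2.getD 0 0 = z := by rw [h1]; simp
      have e2 : x.2.getD 1 0 = w := by rw [h1]; simp
      rw [e1, e2]
      exact ⟨h1, h2⟩

end

theorem main_theorem (G : Subgroup (Equiv.Perm ℕ)) (T : List ℕ → List ℕ → Bool)
    (hc : Computable₂ T)
    (hT : ∀ f g : ℕ → ℕ,
      (∀ n : ℕ, T ((List.range n).map f) ((List.range n).map g) = true) ↔
        ∃ σ ∈ G, (⇑σ = f ∧ ⇑σ.symm = g)) :
    ∃ R : ℕ → List ℕ → Bool, Computable₂ R ∧
      ∃ H : Subgroup (Equiv.Perm ℕ),
        (∀ σ : Equiv.Perm ℕ, σ ∈ H ↔ ∀ (i : ℕ) (l : List ℕ), R i (l.map ⇑σ) = R i l) ∧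
        ∃ φ : G ≃* H,
          (∀ x : G, ∀ n : ℕ, ∃ m : ℕ, ∀ y : G,
              (∀ k : ℕ, k < m → y.1 k = x.1 k) → (φ y).1 n = (φ x).1 n) ∧
          (∀ x : H, ∀ n : ℕ, ∃ m : ℕ, ∀ y : H,
              (∀ k : ℕ, k < m → y.1 k = x.1 k) → (φ.symm y).1 n = (φ.symm x).1 n) := by
  have hwf : ∀ a b, KBWF (Tr T a b) := tr_wf hT
  obtain ⟨r, hr, er⟩ := ComputablePred.computable_iff.1 (cp_rel hc hwf)
  have er' : ∀ i l, (setup T hwf).Rel i.1 i.2.1 i.2.2 l ↔ r (i, l) = true := fun i l => by
    have := congrFun er (i, l)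
    simp only at this
    rw [this]
  refine ⟨fun i l => r (decD _ i, l), ?_, (setup T hwf).autGroup, fun σ => ?_, ?_⟩
  · exact hr.comp (((primrec_decD _).to_comp.comp fst).pair snd)
  · change (setup T hwf).IsAut σ ↔ _
    constructor
    · intro h i l
      rw [Bool.eq_iff_iff, ← er', ← er']
      exact h _ _ _ _
    · intro h tag j b l
      have := h (encP (tag, j, b)) l
      simp only [decD_encP] at this
      rw [Bool.eq_iff_iff, ← er', ← er'] at this
      exact this
  · apply (setup T hwf).main G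
    · intro g hg a b
      exact tr_emb hT hg a b
    · intro f hf
      apply mem_of_not_dead hT
      intro a hd
      obtain ⟨e, h1, h2⟩ := hf a
      exact tr_strict hT hd e h1 h2

end Pool.Agent.Lib.MP_c89ac5_lc
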